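import Mathlib

set_option autoImplicit false

namespace Pool.Agent.Results.MP_4780e6_al.OneSided

/-- the matrix over `R` whose entries are the given units -/
def toMat {R : Type} [Ring R] {v : ℕ} (m : Fin v → Fin v → Rˣ) : Matrix (Fin v) (Fin v) R :=
  Matrix.of fun i j => (m i j : R)

/-- the transpose of the matrix of entrywise inverses -/
def invT {R : Type} [Ring R] {v : ℕ} (m : Fin v → Fin v → Rˣ) : Matrix (Fin v) (Fin v) R :=
  Matrix.of fun i j => (((m j i)⁻¹ : Rˣ) : R)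

def u3 : (ZMod 8)ˣ := ⟨3, 3, by decide, by decide⟩
def u5 : (ZMod 8)ˣ := ⟨5, 5, by decide, by decide⟩
def u7 : (ZMod 8)ˣ := ⟨7, 7, by decide, by decide⟩

def ex : Fin 4 → Fin 4 → (ZMod 8)ˣ :=
  ![![1, 1, 1, 1], ![1, 1, u3, u3], ![1, u3, 1, u3], ![1, u3, u7, u5]]

theorem result : ∃ m : Fin 4 → Fin 4 → (ZMod 8)ˣ, ((4 : ℕ) : ZMod 8) ≠ 0 ∧
    toMat m * invT m = (4 : ℕ) • (1 : Matrix (Fin 4) (Fin 4) (ZMod 8)) ∧
    invT m * toMat m ≠ (4 : ℕ) • (1 : Matrix (Fin 4) (Fin 4) (ZMod 8)) :=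
  ⟨ex, by decide, by decide +kernel, by decide +kernel⟩

end Pool.Agent.Results.MP_4780e6_al.OneSided
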